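import Pool.Agent.H94.AO.QStmts

/-!
# Module ADD of project AO, block Q: a new point with a given neighbourhood on top
-/

set_option linter.unusedVariables false
set_option synthInstance.maxSize 100000

namespace AO

open SW

section
variable {M : Type} [SetStr M] [ZF M]

/-- the maximum of two members of an ordinal -/
theorem add_max {d a c : M} (hd : Ord d) (ha : E a d) (hc : E c d) : E (bun a c) d := by
  have ha' := hd.mem ha
  have hc' := hd.mem hc
  rcases ha'.tri hc' with h | h | h
  · have : bun a c = c := by
      refine ext fun z => ?_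
      rw [mem_bun]
      exact ⟨fun h1 => h1.elim (fun h1 => hc'.trans h h1) id, Or.inr⟩
    rw [this]; exact hc
  · subst h
    have : bun a a = a := by
      refine ext fun z => ?_
      rw [mem_bun]
      exact ⟨fun h1 => h1.elim id id, Or.inr⟩
    rw [this]; exact ha
  · have : bun a c = a := by
      refine ext fun z => ?_
      rw [mem_bun]
      exact ⟨fun h1 => h1.elim id (fun h1 => ha'.trans h h1), Or.inl⟩
    rw [this]; exact ha

theorem add_mem {b t A d n : M} : E (opair d n) (bun t (prod (sing b) A)) ↔
    E (opair d n) t ∨ (d = b ∧ E n A) := by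
  rw [mem_bun, mem_prod, mem_sing]

theorem add_nb {w b t A d : M} (ht : TC w b t) (hd : E d b) :
    nb (bun t (prod (sing b) A)) d = nb t d := by
  refine ext fun n => ?_
  rw [mem_nb, mem_nb, add_mem]
  refine and_congr_right fun hn => ?_
  constructor
  · rintro (h | ⟨rfl, h⟩)
    · exact h
    · exact absurd hd (not_mem_self d)
  · exact Or.inl

theorem add_top {w b t A : M} (ht : TC w b t) (hA : Sub A b) :
    nb (bun t (prod (sing b) A)) b = A := by
  refine ext fun n => ?_
  rw [mem_nb, add_mem]
  constructor
  · rintro ⟨hn, h | ⟨-, h⟩⟩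
    · exact absurd (TC_sub ht h).2 (not_mem_self b)
    · exact h
  · exact fun h => ⟨hA n h, Or.inr ⟨rfl, h⟩⟩

end

theorem add (hcs : CC.CHSStmt) : ADDStmt := by
  intro M _ _ w l b t A hR hp hT
  obtain ⟨hb, ht⟩ := (mem_QP' hR.ord).1 hp
  have hbo : Ord b := hR.ord.mem hb
  have e1 := fun d (hd : E d b) => add_nb (A := A) ht hd
  have e2 := add_top ht hT.sub
  have hself : ¬ E b b := not_mem_self b
  refine ⟨?_, ?_, e2⟩
  · rw [mem_QP' hR.ord]
    refine ⟨hR.suc b hb, ?_, ?_, ?_, ?_, ?_⟩
    · intro z hz
      rw [mem_bun] at hz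
      rcases hz with hz | hz
      · obtain ⟨d, n, rfl, h1, h2⟩ := ht.1 z hz
        exact ⟨d, n, rfl, h1, mem_suc.2 (Or.inl h2)⟩
      · obtain ⟨x, n, hx, hn, rfl⟩ := mem_prod'.1 hz
        rw [mem_sing] at hx
        subst hx
        exact ⟨x, n, rfl, hT.sub n hn, mem_suc.2 (Or.inr rfl)⟩
    · intro d g hd hg
      rcases mem_suc.1 hd with hd | rfl
      · rw [e1 d hd]; exact ht.2.1 d g hd hg
      · rw [e2]; exact hT.seg g hg
    · intro d hd hne
      rcases mem_suc.1 hd with hd | rfl
      · rw [e1 d hd] at hne; exact ht.2.2.1 d hd hne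
      · exact hT.cof
    · intro d hd
      rcases mem_suc.1 hd with hd | rfl
      · rw [e1 d hd]; exact ht.2.2.2.1 d hd
      · rw [e2]; exact hT.im
    · obtain ⟨f, hf1, hf2⟩ := ht.2.2.2.2
      obtain ⟨g, hg⟩ := hcs M (suc b) (fun d y =>
        (E d b → (∃ n, E n (nb t d)) → E y d ∧ Sub (inter d A) y ∧ Sub (app f d) y) ∧
        (d = b → (∃ n, E n A) → E y b)) (by infer_instance) (by
          intro d hd
          rcases mem_suc.1 hd with hd | rfl
          · by_cases hne : ∃ n, E n (nb t d)
            · obtain ⟨c, hc, hc'⟩ := ht.2.2.1 d hd hne (inter d A)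
                (fun z hz => (mem_inter.1 hz).1) (hT.seg d hd)
              refine ⟨bun (app f d) c, fun _ _ => ⟨add_max (hbo.mem hd) (hf1 d hd hne) hc,
                fun z hz => mem_bun.2 (Or.inr (hc' z hz)), fun z hz => mem_bun.2 (Or.inl hz)⟩,
                fun h => ?_⟩
              subst h
              exact absurd hd hself
            · refine ⟨emp, fun _ h => absurd h hne, fun h => ?_⟩
              subst h
              exact absurd hd hself
          · by_cases hne : ∃ n, E n A
            · obtain ⟨n, hn⟩ := hne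
              exact ⟨n, fun h => absurd h hself, fun _ _ => hT.sub n hn⟩
            · exact ⟨emp, fun h => absurd h hself, fun _ h => absurd h hne⟩)
      have key : ∀ d n, E d b → E n (nb t d) → E n A → E n (app g d) := by
        intro d n hd hn hnA
        have h := (hg d (mem_suc.2 (Or.inl hd))).1 hd ⟨n, hn⟩
        exact h.2.1 n (mem_inter.2 ⟨nb_sub t d n hn, hnA⟩)
      refine ⟨g, ?_, ?_⟩
      · intro d hd hne
        rcases mem_suc.1 hd with hd' | rfl
        · rw [e1 d hd'] at hne
          exact ((hg d hd).1 hd' hne).1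
        · rw [e2] at hne
          exact (hg d hd).2 rfl hne
      · intro d d' n hd hd' hne hn hn'
        rcases mem_suc.1 hd with hd1 | rfl
        · rw [e1 d hd1] at hn
          rcases mem_suc.1 hd' with hd1' | rfl
          · rw [e1 d' hd1'] at hn'
            rcases hf2 d d' n hd1 hd1' hne hn hn' with h | h
            · exact Or.inl (((hg d hd).1 hd1 ⟨n, hn⟩).2.2 n h)
            · exact Or.inr (((hg d' hd').1 hd1' ⟨n, hn'⟩).2.2 n h)
          · rw [e2] at hn'
            exact Or.inl (key d n hd1 hn hn')
        · rw [e2] at hn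
          rcases mem_suc.1 hd' with hd1' | rfl
          · rw [e1 d' hd1'] at hn'
            exact Or.inr (key d' n hd1' hn' hn)
          · exact absurd rfl hne
  · rw [QL_opair]
    refine ⟨fun z hz => mem_suc.2 (Or.inl hz), ?_⟩
    refine ext fun z => ?_
    rw [mem_res, mem_bun]
    constructor
    · intro hz
      obtain ⟨d, n, rfl, h1, h2⟩ := ht.1 z hz
      exact ⟨Or.inl hz, d, n, h2, rfl⟩
    · rintro ⟨hz | hz, x, y, hx, rfl⟩
      · exact hz
      · rw [mem_prod, mem_sing] at hz
        obtain ⟨rfl, -⟩ := hz
        exact absurd hx hself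

end AO
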