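import Pool.Agent.H94.AO.QStmts

/-!
# Module DIQ of project AO, block Q: many decisions along a sequence of conditions
-/

set_option linter.unusedVariables false
set_option synthInstance.maxSize 100000

namespace AO

open SW

theorem diq (hch : CHAStmt) : DIQStmt := by
  intro M _ _ w l p v A D hR hD hp hv hmono hdense
  have hNx : Df (fun u : Fin 4 → M => D (u 2) (u 0) (u 3)) :=
    Df.comp3 (R := fun a b c => D a b c) hD inferInstance inferInstance inferInstance
  obtain ⟨pp, g, y, q, hq, hqp, -, hall⟩ := hch M w l v p A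
    (fun j r r' z => D r' j z) hR hNx hv hp (by
      intro j r hj hr hrp
      exact hdense r j hr hrp hj)
  refine ⟨q, y, hq, hqp, fun j hj => ?_⟩
  obtain ⟨-, -, -, -, -, h6, h7, -, h9⟩ := hall j hj
  exact ⟨h6, hmono _ _ _ _ h7 hq h9⟩

end AO
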